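import Pool.Agent.J4H58.SB.Bas

/-! Project KB/SB (MP_6d896a_gt): few placements have labels at neighbouring sites. -/

set_option autoImplicit false

namespace Pool.Agent.J4H17.KB

open Pool.Agent.J4H58.SB
open MeasureTheory Set Filter Topology

open Classical in
theorem cntB (n N : ℕ) (R : SL n → SL n → Prop) (p : SL n × SL n) (hp : p.1.1 ≠ p.2.1) :
    ((cfgB N R).filter fun g => ps N g p.2 = ps N g p.1 + 1).card ≤ (2 * N) ^ (n - 1) := by
  have h1 : ((cfgB N R).filter fun g => ps N g p.2 = ps N g p.1 + 1).card ≤
      (Fintype.piFinset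
        (Function.update (fun _ : Fin n => Finset.range (2 * N)) p.2.1 {0})).card := by
    apply Finset.card_le_card_of_injOn (fun g => Function.update g p.2.1 0)
    · intro g hg
      have hg1 := (Finset.mem_filter.1 hg).1
      have hg2 := (mem_cfgB.mp hg1).1
      rw [Finset.mem_coe, Fintype.mem_piFinset]
      intro a
      by_cases ha : a = p.2.1
      · subst ha; simp
      · show Function.update g p.2.1 0 a ∈ _
        rw [Function.update_of_ne ha, Function.update_of_ne ha]
        exact Finset.mem_range.2 (hg2 a)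
    · intro g hg h hh hgh
      have hg0 := (mem_cfgB.mp (Finset.mem_filter.1 hg).1).1
      have hh0 := (mem_cfgB.mp (Finset.mem_filter.1 hh).1).1
      have hg1 := (Finset.mem_filter.1 hg).2
      have hh1 := (Finset.mem_filter.1 hh).2
      have hgh' : Function.update g p.2.1 0 = Function.update h p.2.1 0 := hgh
      have h3 : ∀ a, a ≠ p.2.1 → g a = h a := by
        intro a ha
        have h2 := congrFun hgh' a
        rwa [Function.update_of_ne ha, Function.update_of_ne ha] at h2
      have h4 : ps N g p.1 = ps N h p.1 := by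
        unfold ps
        rw [h3 _ hp]
      have h5 : ps N g p.2 = ps N h p.2 := by rw [hg1, hh1, h4]
      funext a
      by_cases ha : a = p.2.1
      · subst ha
        unfold ps at h5
        have e1 := hg0 p.2.1
        have e2 := hh0 p.2.1
        split_ifs at h5
        · exact h5
        · exact mir_inj e1 e2 h5
      · exact h3 a ha
  refine le_trans h1 (le_of_eq ?_)
  rw [Fintype.card_piFinset, ← Finset.mul_prod_erase Finset.univ _ (Finset.mem_univ p.2.1)]
  rw [Function.update_self, Finset.card_singleton, one_mul]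
  rw [Finset.prod_congr rfl (g := fun _ => 2 * N)]
  · rw [Finset.prod_const, Finset.card_erase_of_mem (Finset.mem_univ _), Finset.card_univ,
      Fintype.card_fin]
  · intro a ha
    rw [Function.update_of_ne (Finset.ne_of_mem_erase ha), Finset.card_range]

open Classical in
theorem totB (n N : ℕ) (R : SL n → SL n → Prop) :
    ∑ g ∈ cfgB N R, (adjB N g).card ≤ (2 * n) ^ 2 * (2 * N) ^ (n - 1) := by
  calc ∑ g ∈ cfgB N R, (adjB N g).card
      = ∑ g ∈ cfgB N R, ∑ p : SL n × SL n,
          (if ps N g p.2 = ps N g p.1 + 1 ∧ p.1.1 ≠ p.2.1 then 1 else 0) := by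
        apply Finset.sum_congr rfl
        intro g _
        unfold adjB
        rw [Finset.card_filter]
    _ = ∑ p : SL n × SL n, ∑ g ∈ cfgB N R,
          (if ps N g p.2 = ps N g p.1 + 1 ∧ p.1.1 ≠ p.2.1 then 1 else 0) :=
        Finset.sum_comm
    _ ≤ ∑ _p : SL n × SL n, (2 * N) ^ (n - 1) := by
        refine Finset.sum_le_sum fun p _ => ?_
        by_cases hp : p.1.1 ≠ p.2.1
        · refine le_trans (le_of_eq ?_) (cntB n N R p hp)
          rw [Finset.card_filter]
          exact Finset.sum_congr rfl fun g _ => by simp only [hp, ne_eq, not_false_eq_true, and_true]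
        · rw [Finset.sum_eq_zero fun g _ => if_neg fun h => hp h.2]
          exact Nat.zero_le _
    _ = (2 * n) ^ 2 * (2 * N) ^ (n - 1) := by
        rw [Finset.sum_const, Finset.card_univ, Fintype.card_prod, Fintype.card_prod,
          Fintype.card_fin, Fintype.card_bool, smul_eq_mul]
        ring

theorem t_ADJB : S_ADJB := by
  intro n R
  refine squeeze_zero' (g := fun N : ℕ => (((2 * n : ℕ) : ℝ) ^ 2 / 2) / (N : ℝ))
    (Eventually.of_forall fun N => ?_) ?_
    (tendsto_const_div_atTop_nhds_zero_nat _)
  · exact div_nonneg (Finset.sum_nonneg fun g _ => Nat.cast_nonneg _) (by positivity)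
  · filter_upwards [eventually_gt_atTop 0] with N hN
    have hN' : (0 : ℝ) < N := Nat.cast_pos.2 hN
    have h1 : (∑ g ∈ cfgB N R, ((adjB N g).card : ℝ)) ≤
        (((2 * n : ℕ) : ℝ)) ^ 2 * (((2 * N : ℕ) : ℝ)) ^ (n - 1) := by
      exact_mod_cast totB n N R
    refine le_trans (div_le_div_of_nonneg_right h1 (by positivity)) (le_of_eq ?_)
    rcases Nat.eq_zero_or_pos n with h0 | h0
    · subst h0; simp
    · obtain ⟨k, rfl⟩ : ∃ k, n = k + 1 := ⟨n - 1, by omega⟩
      rw [Nat.add_sub_cancel, pow_succ (((2 * N : ℕ) : ℝ)) k]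
      push_cast
      field_simp

end Pool.Agent.J4H17.KB
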