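import Pool.Agent.J4H58.SB.Bas

/-! Project KB/SB (MP_6d896a_gt): the energy of a placement, by the kinds of exchanges. -/

set_option autoImplicit false

namespace Pool.Agent.J4H17.KB

open Pool.Agent.J4H58.SB

lemma sum_ite_le {s : Finset ℕ} {φ : ℕ → Prop} [DecidablePred φ] {x : ℝ} (hx : 0 ≤ x)
    (h : ∀ i ∈ s, ∀ j ∈ s, φ i → φ j → i = j) : ∑ k ∈ s, (if φ k then x else 0) ≤ x := by
  rw [← Finset.sum_filter, Finset.sum_const, nsmul_eq_mul]
  have h1 : (s.filter φ).card ≤ 1 := by
    rw [Finset.card_le_one]
    intro i hi j hj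
    rw [Finset.mem_filter] at hi hj
    exact h i hi.1 j hj.1 hi.2 hj.2
  have h2 : ((s.filter φ).card : ℝ) ≤ 1 := by exact_mod_cast h1
  calc ((s.filter φ).card : ℝ) * x ≤ 1 * x := mul_le_mul_of_nonneg_right h2 hx
    _ = x := one_mul x

section

variable {n N : ℕ} {g : Fin n → ℕ} {k : ℕ}

/-- the other labels are not moved -/
lemma others (hlt : ∀ a, g a < 2 * N) (hk : k < N) {a : Fin n}
    (hz : ∀ z : SL n, (ps N g z = k ∨ ps N g z = k + 1) → z.1 = a) (b : Fin n) (hb : b ≠ a) :
    g b ≠ k ∧ g b ≠ k + 1 ∧ g b ≠ mir N k ∧ g b ≠ mir N (k + 1) := by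
  refine ⟨fun h => hb (hz (b, true) (Or.inl ?_)), fun h => hb (hz (b, true) (Or.inr ?_)),
    fun h => hb (hz (b, false) (Or.inl ?_)), fun h => hb (hz (b, false) (Or.inr ?_))⟩
  · simpa [ps] using h
  · simpa [ps] using h
  · simp only [ps, Bool.false_eq_true, if_false, h]
    exact mir_mir (by omega)
  · simp only [ps, Bool.false_eq_true, if_false, h]
    exact mir_mir (by omega)

lemma mv_upd (hlt : ∀ a, g a < 2 * N) (hk : k < N) {a : Fin n}
    (hz : ∀ z : SL n, (ps N g z = k ∨ ps N g z = k + 1) → z.1 = a) {v : ℕ}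
    (hv : rf N k (k + 1) (g a) = v) : mvB N k (k + 1) g = Function.update g a v := by
  funext b
  unfold mvB
  by_cases hb : b = a
  · subst hb
    rw [hv, Function.update_self]
  · obtain ⟨h1, h2, h3, h4⟩ := others hlt hk hz b hb
    rw [rf_succ hk, if_neg h1, if_neg h2, if_neg h3, if_neg h4, Function.update_of_ne hb]

lemma mv_id (hk : k < N) (hz : ∀ z : SL n, ¬ (ps N g z = k ∨ ps N g z = k + 1)) :
    mvB N k (k + 1) g = g := by
  funext b
  unfold mvB
  have h1 : g b ≠ k := fun h => hz (b, true) (Or.inl (by simpa [ps] using h))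
  have h2 : g b ≠ k + 1 := fun h => hz (b, true) (Or.inr (by simpa [ps] using h))
  have h3 : g b ≠ mir N k := fun h => hz (b, false) (Or.inl (by
    simp only [ps, Bool.false_eq_true, if_false, h]
    exact mir_mir (by omega)))
  have h4 : g b ≠ mir N (k + 1) := fun h => hz (b, false) (Or.inr (by
    simp only [ps, Bool.false_eq_true, if_false, h]
    exact mir_mir (by omega)))
  rw [rf_succ hk, if_neg h1, if_neg h2, if_neg h3, if_neg h4]

end

theorem t_UPCB : S_UPCB := by
  classical
  intro n N R c F hc hsym g hg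
  obtain ⟨hlt, hinj, -⟩ := mem_cfgB.mp hg
  set A : Fin n → ℝ := fun a => if g a + 1 < 2 * N then
    c (g a) * (F (Function.update g a (g a + 1)) - F g) ^ 2 else 0 with hAdef
  set B : Fin n → ℝ := fun a => if 0 < g a then
    c (g a - 1) * (F (Function.update g a (g a - 1)) - F g) ^ 2 else 0 with hBdef
  set C : SL n × SL n → ℝ := fun p =>
    c (ps N g p.1) * (F (mvB N (ps N g p.1) (ps N g p.1 + 1) g) - F g) ^ 2 with hCdef
  have hA : ∀ a, 0 ≤ A a := by
    intro a
    simp only [hAdef]
    split_ifs with h
    · exact mul_nonneg (hc _ h) (sq_nonneg _)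
    · exact le_rfl
  have hB : ∀ a, 0 ≤ B a := by
    intro a
    simp only [hBdef]
    split_ifs with h
    · refine mul_nonneg (hc _ ?_) (sq_nonneg _)
      have := hlt a
      omega
    · exact le_rfl
  have hadj : ∀ p : SL n × SL n, p ∈ adjB N g ↔ ps N g p.2 = ps N g p.1 + 1 ∧ p.1.1 ≠ p.2.1 := by
    intro p
    unfold adjB
    rw [Finset.mem_filter]
    exact ⟨fun h => h.2, fun h => ⟨Finset.mem_univ _, h⟩⟩
  have hC : ∀ p ∈ adjB N g, 0 ≤ C p := by
    intro p hp
    refine mul_nonneg (hc _ ?_) (sq_nonneg _)
    rw [← ((hadj p).1 hp).1]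
    exact ps_lt hlt _
  have key : ∀ k ∈ Finset.range N,
      (if mvB N k (k + 1) g ∈ cfgB N R then c k * (F (mvB N k (k + 1) g) - F g) ^ 2 else 0) ≤
      (∑ a, if g a = k ∨ g a = 2 * N - 2 - k then A a else 0) +
      (∑ a, if g a = k + 1 ∨ g a = 2 * N - 1 - k then B a else 0) +
      ∑ p ∈ adjB N g, if ps N g p.1 = k then C p else 0 := by
    intro k hk
    have hk' : k < N := Finset.mem_range.1 hk
    have n1 : 0 ≤ ∑ a, if g a = k ∨ g a = 2 * N - 2 - k then A a else 0 :=
      Finset.sum_nonneg fun a _ => by split_ifs; exacts [hA a, le_rfl]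
    have n2 : 0 ≤ ∑ a, if g a = k + 1 ∨ g a = 2 * N - 1 - k then B a else 0 :=
      Finset.sum_nonneg fun a _ => by split_ifs; exacts [hB a, le_rfl]
    have n3 : 0 ≤ ∑ p ∈ adjB N g, if ps N g p.1 = k then C p else 0 :=
      Finset.sum_nonneg fun p hp => by
        split_ifs
        · exact hC p hp
        · exact le_rfl
    have hq : (if mvB N k (k + 1) g ∈ cfgB N R then
        c k * (F (mvB N k (k + 1) g) - F g) ^ 2 else 0) ≤
        c k * (F (mvB N k (k + 1) g) - F g) ^ 2 := by
      split_ifs
      · exact le_rfl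
      · exact mul_nonneg (hc _ (by omega)) (sq_nonneg _)
    refine hq.trans ?_
    have useA : ∀ a, (g a = k ∨ g a = 2 * N - 2 - k) →
        mvB N k (k + 1) g = Function.update g a (g a + 1) →
        c k * (F (mvB N k (k + 1) g) - F g) ^ 2 ≤
          ∑ a, if g a = k ∨ g a = 2 * N - 2 - k then A a else 0 := by
      intro a ha hm
      have h3 : (if g a = k ∨ g a = 2 * N - 2 - k then A a else 0) ≤
          ∑ a, if g a = k ∨ g a = 2 * N - 2 - k then A a else 0 :=
        Finset.single_le_sum (f := fun a => if g a = k ∨ g a = 2 * N - 2 - k then A a else 0)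
          (fun x _ => by beta_reduce; split_ifs; exacts [hA x, le_rfl]) (Finset.mem_univ a)
      rw [if_pos ha] at h3
      refine le_trans (le_of_eq ?_) h3
      have hcc : c (g a) = c k := by
        rcases ha with ha | ha
        · rw [ha]
        · rw [ha]
          exact hsym k (by omega)
      simp only [hAdef]
      rw [if_pos (by omega), hm, hcc]
    have useB : ∀ a, (g a = k + 1 ∨ g a = 2 * N - 1 - k) →
        mvB N k (k + 1) g = Function.update g a (g a - 1) →
        c k * (F (mvB N k (k + 1) g) - F g) ^ 2 ≤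
          ∑ a, if g a = k + 1 ∨ g a = 2 * N - 1 - k then B a else 0 := by
      intro a ha hm
      have h3 : (if g a = k + 1 ∨ g a = 2 * N - 1 - k then B a else 0) ≤
          ∑ a, if g a = k + 1 ∨ g a = 2 * N - 1 - k then B a else 0 :=
        Finset.single_le_sum (f := fun a => if g a = k + 1 ∨ g a = 2 * N - 1 - k then B a else 0)
          (fun x _ => by beta_reduce; split_ifs; exacts [hB x, le_rfl]) (Finset.mem_univ a)
      rw [if_pos ha] at h3
      refine le_trans (le_of_eq ?_) h3
      have hcc : c (g a - 1) = c k := by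
        rcases ha with ha | ha
        · rw [ha, Nat.add_sub_cancel]
        · rw [ha, show 2 * N - 1 - k - 1 = 2 * N - 2 - k by omega]
          exact hsym k (by omega)
      simp only [hBdef]
      rw [if_pos (by omega), hm, hcc]
    by_cases h0 : ∃ x y, ps N g x = k ∧ ps N g y = k + 1 ∧ x.1 ≠ y.1
    · obtain ⟨x, y, hx, hy, hxy⟩ := h0
      have hmem : (x, y) ∈ adjB N g := (hadj _).2 ⟨by rw [hx, hy], hxy⟩
      have h3 : (if ps N g (x, y).1 = k then C (x, y) else 0) ≤
          ∑ p ∈ adjB N g, if ps N g p.1 = k then C p else 0 := by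
        refine Finset.single_le_sum (f := fun p : SL n × SL n => if ps N g p.1 = k then C p else 0)
          (fun p hp => ?_) hmem
        beta_reduce
        split_ifs
        · exact hC p hp
        · exact le_rfl
      rw [if_pos hx] at h3
      simp only [hCdef, hx] at h3
      simp only [hCdef] at n3 h3 ⊢
      linarith
    push Not at h0
    by_cases h1 : ∃ x, ps N g x = k
    · obtain ⟨x, hx⟩ := h1
      have hz : ∀ z : SL n, (ps N g z = k ∨ ps N g z = k + 1) → z.1 = x.1 := by
        rintro z (hz | hz)
        · rw [hinj (hz.trans hx.symm)]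
        · exact (h0 x z hx hz).symm
      obtain ⟨a, b⟩ := x
      cases b
      · -- mirror image at `k`
        have ha : g a = 2 * N - 1 - k := by
          simp only [ps, Bool.false_eq_true, if_false] at hx
          have := hlt a
          unfold mir at hx
          omega
        have hv : rf N k (k + 1) (g a) = g a - 1 := by
          rw [rf_succ hk', ha]
          unfold mir
          split_ifs <;> omega
        have := useB a (Or.inr ha) (mv_upd hlt hk' hz hv)
        linarith
      · have ha : g a = k := by simpa [ps] using hx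
        have hv : rf N k (k + 1) (g a) = g a + 1 := by
          rw [rf_succ hk', if_pos ha, ha]
        have := useA a (Or.inl ha) (mv_upd hlt hk' hz hv)
        linarith
    · push Not at h1
      by_cases h2 : ∃ y, ps N g y = k + 1
      · obtain ⟨y, hy⟩ := h2
        have hz : ∀ z : SL n, (ps N g z = k ∨ ps N g z = k + 1) → z.1 = y.1 := by
          rintro z (hz | hz)
          · exact absurd hz (h1 z)
          · rw [hinj (hz.trans hy.symm)]
        obtain ⟨a, b⟩ := y
        cases b
        · have ha : g a = 2 * N - 2 - k := by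
            simp only [ps, Bool.false_eq_true, if_false] at hy
            have := hlt a
            unfold mir at hy
            omega
          have hak : g a ≠ k := fun h => h1 (a, true) (by simpa [ps] using h)
          have hv : rf N k (k + 1) (g a) = g a + 1 := by
            rw [rf_succ hk', ha]
            rw [ha] at hak
            unfold mir
            split_ifs <;> omega
          have := useA a (Or.inr ha) (mv_upd hlt hk' hz hv)
          linarith
        · have ha : g a = k + 1 := by simpa [ps] using hy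
          have hv : rf N k (k + 1) (g a) = g a - 1 := by
            rw [rf_succ hk', if_neg (by omega), if_pos ha]
            omega
          have := useB a (Or.inl ha) (mv_upd hlt hk' hz hv)
          linarith
      · push Not at h2
        rw [mv_id hk' (fun z hz => hz.elim (h1 z) (h2 z)), sub_self]
        have : c k * (0 : ℝ) ^ 2 = 0 := by ring
        rw [this]
        linarith
  have h1 := Finset.sum_le_sum key
  have e1 : ∑ k ∈ Finset.range N, ∑ a, (if g a = k ∨ g a = 2 * N - 2 - k then A a else 0) ≤
      ∑ a, A a := by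
    rw [Finset.sum_comm]
    refine Finset.sum_le_sum fun a _ => sum_ite_le (hA a) fun i hi' j hj' hi hj => ?_
    rw [Finset.mem_range] at hi' hj'
    omega
  have e2 : ∑ k ∈ Finset.range N, ∑ a, (if g a = k + 1 ∨ g a = 2 * N - 1 - k then B a else 0) ≤
      ∑ a, B a := by
    rw [Finset.sum_comm]
    refine Finset.sum_le_sum fun a _ => sum_ite_le (hB a) fun i hi' j hj' hi hj => ?_
    rw [Finset.mem_range] at hi' hj'
    omega
  have e3 : ∑ k ∈ Finset.range N, ∑ p ∈ adjB N g, (if ps N g p.1 = k then C p else 0) ≤
      ∑ p ∈ adjB N g, C p := by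
    rw [Finset.sum_comm]
    exact Finset.sum_le_sum fun p hp => sum_ite_le (hC p hp) fun i _ j _ hi hj => hi.symm.trans hj
  rw [Finset.sum_add_distrib, Finset.sum_add_distrib] at h1
  unfold QQB
  linarith

end Pool.Agent.J4H17.KB
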